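import Pool.Agent.H4R2.HD.Eng

/-!
# Absolutely continuous spectrum of the Bernoulli Anderson model at the band edges

Definitions and the statements of the parts of the project AE (edges, doubly exponentially small
exceptional sets of energies).
-/

set_option autoImplicit false

namespace Pool.Agent.L7h99.AE

open MeasureTheory
open scoped ENNReal
open Pool.Agent.H12R2.And (V ee Q pot PP Dep Good Edge hop NR RR XX IsH Rz)

variable {d : ℕ}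

/-- the initial event: a quarter of the points of each cube of radius `n` are barriers -/
def Dn (b : Bool) (n L : ℕ) (ω : V d → Bool) (a : V d) : Prop :=
  ∀ x ∈ Q a (L - n), (Q x n).card ≤ 4 * ((Q x n).filter (fun z => ω z = b)).card

/-- the energy `∑_x ∑_i (g (x + e_i) - g x)^2` of a function on the lattice -/
noncomputable def En (g : V d → ℝ) : ℝ := ∑ i : Fin d, ∑' x : V d, (g (x + ee i) - g x) ^ 2

/-- [POI] Poincaré inequality: `Σ g² ≤ 8 Σ_B g² + 8 d n² En g` for finitely supported `g`, if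
`B` contains a quarter of the points of each cube of radius `n` centred in the support of `g` -/
def S_POI : Prop := ∀ {d : ℕ} (B : Set (V d)) (n : ℕ) (g : V d → ℝ),
  (Function.support g).Finite →
  (∀ x, g x ≠ 0 → ((Q x n).card : ℝ) ≤ 4 * ∑ z ∈ Q x n, B.indicator (fun _ => (1 : ℝ)) z) →
  ∑' x, g x ^ 2 ≤ 8 * ∑' x, B.indicator (fun x => g x ^ 2) x + 8 * d * n ^ 2 * En g

/-- [CAC] the energy of a localised subsolution -/
def S_CAC : Prop := ∀ {d : ℕ} (B : Set (V d)) (δ : ℝ) (f c : V d → ℝ), (∀ x, 0 ≤ f x) →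
  (Function.support c).Finite →
  (∀ x, c x ≠ 0 → (2 * d - δ + B.indicator (fun _ => (2 : ℝ)) x) * f x ≤
    ∑ i : Fin d, (f (x + ee i) + f (x - ee i))) →
  En (fun x => c x * f x) + 2 * ∑' x, B.indicator (fun x => (c x * f x) ^ 2) x ≤
    δ * ∑' x, (c x * f x) ^ 2 +
      ∑ i : Fin d, ∑' x, (c (x + ee i) - c x) ^ 2 * (f x * f (x + ee i))

/-- [CUT] a cut-off function -/
def S_CUT : Prop := ∀ {d : ℕ} (a : V d) (ρ w : ℕ), 1 ≤ w → ∃ c : V d → ℝ,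
  (∀ x, 0 ≤ c x) ∧ (∀ x ∈ Q a ρ, c x = 1) ∧ (∀ x, c x ≠ 0 → x ∈ Q a (ρ + w)) ∧
  (∀ f : V d → ℝ, (∀ x, 0 ≤ f x) →
    ∑ i : Fin d, ∑' x, (c (x + ee i) - c x) ^ 2 * (f x * f (x + ee i)) ≤
      (d / w ^ 2) * ∑ x ∈ Q a (ρ + w), f x ^ 2)

/-- [DEC] decay of the solutions from the initial event -/
def S_DEC : Prop := ∀ {d : ℕ}, 1 ≤ d → ∀ (b : Bool) (n L : ℕ) (δ E : ℝ), 1 ≤ n → n ≤ L →
  Edge d b δ E → 16 * d * n ^ 2 * δ ≤ 1 → ∀ (ω : V d → Bool) (a : V d), Dn b n L ω a →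
  Good ω E L ((2 * L + 1) ^ d / 2 ^ ((L - n) / (8 * d * n))) a

/-- [PRO] probability of the initial event -/
def S_PRO : Prop := ∀ {d : ℕ} (b : Bool) (n L : ℕ) (a : V d),
  (PP d).real {ω | ¬ Dn b n L ω a} ≤ (2 * L + 1) ^ d * (97 / 108 : ℝ) ^ ((2 * n + 1) ^ d)

/-- [ENG] the multiscale analysis with a large power `r` -/
def S_ENG : Prop := ∀ {d : ℕ}, 2 ≤ d → ∀ (L0 r : ℕ) (J : (V d → Bool) → V d → Prop),
  (∀ a : V d, Dep (Q a L0) {ω | J ω a}) → 1 ≤ L0 → 1 ≤ r →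
  2 * d * 17 ^ d * 10 ^ (d + 1) ≤ L0 → 6 * 17 ^ (2 * d) * 10 ^ (2 * d + 1) ≤ L0 →
  4 ^ d * (4 * d ^ 2) ≤ L0 →
  (∀ a : V d, (PP d).real {ω | ¬ J ω a} ≤ ((L0 : ℝ) ^ (2 * d + 1))⁻¹) →
  ∀ B : Set ℝ, MeasurableSet B → B ⊆ Set.Ioc (-(4 * d + 2) : ℝ) (4 * d + 2) →
  (∀ E ∈ B, ∀ (ω : V d → Bool) (a : V d), J ω a →
    Good ω E L0 (((L0 : ℝ) ^ (4 * r + 2 * d + 2))⁻¹) a) →
  ∀ᵐ ω ∂(PP d), ∀ (H : lp (fun _ : V d => ℂ) 2 →L[ℂ] lp (fun _ : V d => ℂ) 2), IsH ω H →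
    ∀ (ψ : lp (fun _ : V d => ℂ) 2) (μ : Measure ℝ), IsFiniteMeasure μ →
      (∀ z : ℂ, z.im ≠ 0 → (∫ x, ((x : ℂ) - z)⁻¹ ∂μ) = inner ℂ ψ (Rz H z ψ)) →
      (μ.restrict (B ∩ XX d r L0)) ⟂ₘ volume

/-- [VOL] the exceptional energies -/
def S_VOL : Prop := ∀ {d : ℕ} (r L0 : ℕ), 3 * d + 4 ≤ r → 12 * 17 ^ d ≤ L0 →
  volume (XX d r L0)ᶜ ≤ ENNReal.ofReal (((L0 : ℝ) ^ (r - (3 * d + 3)))⁻¹)

end Pool.Agent.L7h99.AE
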