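import Pool.Agent.L7h99.AE.Defs

set_option autoImplicit false

/-! The multiscale analysis with a large power (copy of `H4R2.HD.Eng` with general `r`). -/

namespace Pool.Agent.L7h99.AE

open Finset Complex MeasureTheory ProbabilityTheory Filter
open scoped ENNReal Topology InnerProductSpace
open Pool.Agent.H12R2.And hiding GG good_of_GG dep_GG meas_GG joint_GG Sh dep_Sh prob_Sh prob_GG FF joint_FF ae_ae_FF
open Pool.Agent.H4R2.HD (GG dep_GG meas_GG joint_GG Sh dep_Sh prob_Sh prob_GG FF joint_FF ae_ae_FF)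

variable {d : ℕ}

lemma numeric_step' {r L : ℕ} (hd : 1 ≤ d) (hL0 : 2 * d * 17 ^ d * 10 ^ (d + 1) ≤ L) :
    ((2 * d * 17 ^ d * (L : ℝ) ^ (r + d)) * ((L : ℝ) ^ (4 * r + 2 * d + 2))⁻¹) ^ 2 ≤
      (((10 * L : ℕ) : ℝ) ^ (4 * r + 2 * d + 2))⁻¹ := by
  have h17 : 1 ≤ 17 ^ d := Nat.one_le_pow _ _ (by norm_num)
  have h10 : 100 ≤ 10 ^ (d + 1) := by
    calc 100 = 10 ^ 2 := by norm_num
      _ ≤ 10 ^ (d + 1) := Nat.pow_le_pow_right (by norm_num) (by omega)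
  have hL100 : 100 ≤ L := by
    refine le_trans ?_ hL0
    calc 100 = 1 * 1 * 100 := by norm_num
      _ ≤ (2 * d) * 17 ^ d * 10 ^ (d + 1) :=
        Nat.mul_le_mul (Nat.mul_le_mul (by omega) h17) h10
  have hL' : (100 : ℝ) ≤ L := by exact_mod_cast hL100
  have hLp : (0 : ℝ) < L := by linarith
  have h1 : (2 * d * 17 ^ d * 10 ^ (d + 1) : ℝ) ≤ L := by exact_mod_cast hL0
  rw [mul_pow, inv_pow, ← div_eq_mul_inv, div_le_iff₀ (by positivity), inv_mul_eq_div,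
    le_div_iff₀ (by positivity)]
  push_cast
  calc (2 * d * 17 ^ d * (L : ℝ) ^ (r + d)) ^ 2 * (10 * L) ^ (4 * r + 2 * d + 2)
      = ((2 * d * 17 ^ d * 10 ^ (d + 1)) ^ 2 * (100 : ℝ) ^ (2 * r)) * (L : ℝ) ^ (2 * (r + d)) *
          (L : ℝ) ^ (4 * r + 2 * d + 2) := by
        have e : (L : ℝ) ^ (2 * (r + d)) = ((L : ℝ) ^ (r + d)) ^ 2 := by
          rw [← pow_mul, mul_comm]
        have e2 : (100 : ℝ) ^ (2 * r) = 10 ^ (4 * r) := by
          rw [show (100 : ℝ) = 10 ^ 2 by norm_num, ← pow_mul]; congr 1; ring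
        have e3 : (10 : ℝ) ^ (4 * r + 2 * d + 2) = 10 ^ (4 * r) * (10 ^ (d + 1)) ^ 2 := by
          rw [← pow_mul, ← pow_add]; congr 1; ring
        rw [e, e2, mul_pow (10 : ℝ) (L : ℝ), e3]; ring
    _ ≤ ((L : ℝ) ^ 2 * (L : ℝ) ^ (2 * r)) * (L : ℝ) ^ (2 * (r + d)) *
          (L : ℝ) ^ (4 * r + 2 * d + 2) := by gcongr
    _ = ((L : ℝ) ^ (4 * r + 2 * d + 2)) ^ 2 := by ring

lemma good_of_GG' {J : (V d → Bool) → V d → Prop} {r L0 : ℕ} (hd : 1 ≤ d) (h1 : 1 ≤ L0)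
    (hL0 : 2 * d * 17 ^ d * 10 ^ (d + 1) ≤ L0) {E : ℝ}
    (h0 : ∀ (ω : V d → Bool) (a : V d), J ω a →
      Good ω E L0 (((L0 : ℝ) ^ (4 * r + 2 * d + 2))⁻¹) a) :
    ∀ (k : ℕ) (ω : V d → Bool) (a : V d), GG J r L0 k ω E a →
      Good ω E (10 ^ k * L0) ((((10 ^ k * L0 : ℕ) : ℝ) ^ (4 * r + 2 * d + 2))⁻¹) a := by
  intro k
  induction k with
  | zero => intro ω a h; simpa using h0 ω a h
  | succ k ih =>
    rintro ω a ⟨hR, i, j, hij, hj, hi', hj'⟩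
    set L := 10 ^ k * L0 with hLdef
    have hL1 : 1 ≤ L := Nat.one_le_iff_ne_zero.mpr (by positivity)
    have hLL0 : L0 ≤ L := Nat.le_mul_of_pos_left _ (by positivity)
    have hL' : (1 : ℝ) ≤ L := by exact_mod_cast hL1
    have hd' : (1 : ℝ) ≤ d := by exact_mod_cast hd
    have e10 : 10 ^ (k + 1) * L0 = 10 * L := by rw [hLdef]; ring
    rw [e10]
    have hKκ := numeric_step' (d := d) (r := r) hd (hL0.trans hLL0)
    refine Good.mono ?_ hKκ
    have hi3 : i < 3 := by omega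
    refine good_of_two_shells (τ := ((L : ℝ) ^ r)⁻¹) (L := L) (ρ₁ := (3 * i + 2) * L)
      (ρ₂ := (3 * j + 2) * L) (by positivity) (by positivity) ?_ ?_ ?_ ?_ ?_ (hR i hi3) (hR j hj)
      (fun w hw hw' => ih ω w (hi' w hw hw')) (fun w hw hw' => ih ω w (hj' w hw hw'))
    · have : (1 : ℝ) ≤ 2 * d * 17 ^ d := by
        have : (1 : ℝ) ≤ 17 ^ d := one_le_pow₀ (by norm_num)
        nlinarith
      have h2 : (1 : ℝ) ≤ (L : ℝ) ^ (r + d) := one_le_pow₀ hL'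
      nlinarith
    · nlinarith
    · nlinarith
    · nlinarith
    · rw [inv_inv]
      have h8 : (2 * (((3 * j + 2) * L : ℕ) : ℝ) + 1) ≤ 17 * L := by
        have : (3 * j + 2) * L ≤ 8 * L := Nat.mul_le_mul_right _ (by omega)
        have h9 : (((3 * j + 2) * L : ℕ) : ℝ) ≤ 8 * L := by exact_mod_cast this
        linarith
      have h0' : (0 : ℝ) ≤ 2 * (((3 * j + 2) * L : ℕ) : ℝ) + 1 := by positivity
      calc (L : ℝ) ^ r * (2 * d * (2 * (((3 * j + 2) * L : ℕ) : ℝ) + 1) ^ d)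
          ≤ (L : ℝ) ^ r * (2 * d * (17 * L) ^ d) := by gcongr
        _ = 2 * d * 17 ^ d * (L : ℝ) ^ (r + d) := by
            rw [mul_pow, pow_add]; ring

theorem eng : S_ENG := by
  intro d hd L0 r J hJ h1L hr1 big1 big2 big4 hP B hB hBb hgood
  have hd1 : 1 ≤ d := by omega
  set SB : Set ℝ := B ∩ XX d r L0 with hSB
  have hSBm : MeasurableSet SB := hB.inter (measurableSet_XX _ _)
  have hfin : volume SB ≠ ∞ :=
    ne_top_of_le_ne_top (by simp : volume (Set.Ioc (-(4 * d + 2) : ℝ) (4 * d + 2)) ≠ ∞)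
      (measure_mono (Set.inter_subset_left.trans hBb))
  have hae := ae_ae_FF (d := d) (J := J) (r := r) (L0 := L0)
    hJ h1L big2 hP hSBm (Set.inter_subset_right) hfin
  filter_upwards [hae] with ω hω H hH ψ μ hμf hμ
  apply mutuallySingular_of_rnDeriv hSBm
  set N : ℝ := max (4 * d + 2) (2 * ‖H‖) with hN
  have hd' : (1 : ℝ) ≤ d := by exact_mod_cast hd1
  have hN1 : 4 * d + 2 ≤ N := le_max_left _ _
  set ε : ℕ → ℝ := fun k => ((((10 ^ k * L0 : ℕ) : ℝ)) ^ (3 * r))⁻¹ with hε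
  have hLk : ∀ k, 1 ≤ 10 ^ k * L0 := fun k => Nat.one_le_iff_ne_zero.mpr (by positivity)
  have hLk' : ∀ k, (1 : ℝ) ≤ ((10 ^ k * L0 : ℕ) : ℝ) := fun k => by exact_mod_cast hLk k
  have hε0 : ∀ k, 0 < ε k := fun k => by
    have := hLk' k
    simp only [hε]; positivity
  have hε1 : ∀ k, ε k ≤ N := fun k => by
    have h1 : ε k ≤ 1 := inv_le_one_of_one_le₀ (one_le_pow₀ (hLk' k))
    linarith
  have hLtend : Tendsto (fun k : ℕ => (((10 ^ k * L0 : ℕ) : ℝ))⁻¹) atTop (𝓝 0) := by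
    apply tendsto_inv_atTop_zero.comp
    apply tendsto_natCast_atTop_atTop.comp
    apply tendsto_atTop_mono (f := fun k => k)
    · intro k
      calc k ≤ 10 ^ k := (Nat.lt_pow_self (by norm_num)).le
        _ ≤ 10 ^ k * L0 := Nat.le_mul_of_pos_right _ h1L
    · exact tendsto_id
  have hεt : Tendsto ε atTop (𝓝 0) := by
    refine squeeze_zero (fun k => (hε0 k).le) (fun k => ?_) hLtend
    simp only [hε]
    apply inv_anti₀ (by linarith [hLk' k])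
    exact le_self_pow₀ (hLk' k) (by omega)
  have hBN : B ⊆ Set.Ioc (-N) N := by
    intro E hE
    have := hBb hE
    exact ⟨by linarith [this.1], by linarith [this.2]⟩
  refine singular_on hH.isSelfAdjoint (N := N)
    (Set.inter_subset_left.trans hBN) (le_max_right _ _) hε0 hε1 hεt
    (fun ψ δ hδ => fin_dense ψ δ hδ) ?_ ψ hμ
  rintro φ ⟨R0, hφ⟩
  have hmem : ∀ᵐ E ∂(volume.restrict SB), E ∈ SB := ae_restrict_mem hSBm
  filter_upwards [hω, hmem] with E hE hES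
  -- the good cubes
  have hGG := fun k => good_of_GG' (r := r) hd1 h1L big1 (hgood E hES.1) k ω
  have hev : ∀ᶠ k in atTop, gg H φ (ε k) E ≤
      ENNReal.ofReal (7 * (((10 ^ k * L0 : ℕ) : ℝ))⁻¹ * ‖φ‖ ^ 2) := by
    have hR : ∀ᶠ k : ℕ in atTop, R0 < 10 ^ k * L0 := by
      filter_upwards [eventually_gt_atTop R0] with k hk
      calc R0 < k := hk
        _ ≤ 10 ^ k := (Nat.lt_pow_self (by norm_num)).le
        _ ≤ 10 ^ k * L0 := Nat.le_mul_of_pos_right _ h1L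
    filter_upwards [hE, hR] with k hFF hRk
    apply ENNReal.ofReal_le_ofReal
    obtain ⟨hSh, hRR⟩ := hFF
    refine decouple hH (r := r) (M := 4 * r + 2 * d + 2) (R0 := R0) hr1
      rfl (hLk k) (big4.trans (Nat.le_mul_of_pos_left _ (by positivity))) hRk ?_ ?_ hφ
    · have := hRR 0 (by norm_num)
      simpa using this
    · intro w hw hw'
      apply hGG k w
      apply hSh w
      · simpa using hw
      · simpa using hw'
  have hlim : Tendsto (fun k : ℕ => ENNReal.ofReal (7 * (((10 ^ k * L0 : ℕ) : ℝ))⁻¹ * ‖φ‖ ^ 2))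
      atTop (𝓝 0) := by
    have h1 : Tendsto (fun k : ℕ => 7 * (((10 ^ k * L0 : ℕ) : ℝ))⁻¹ * ‖φ‖ ^ 2) atTop (𝓝 0) := by
      have := (hLtend.const_mul 7).mul_const (‖φ‖ ^ 2)
      simpa using this
    have h2 := (ENNReal.continuous_ofReal.tendsto 0).comp h1
    rw [ENNReal.ofReal_zero] at h2
    exact h2
  exact tendsto_of_tendsto_of_tendsto_of_le_of_le' tendsto_const_nhds hlim
    (Eventually.of_forall fun _ => zero_le) hev

lemma volume_aux {r L : ℕ} (hL : 1 ≤ L) :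
    volume {E | ¬ (PP d).real {ω | ¬ RR r ω E L (0 : V d)} ≤ ((L : ℝ) ^ (2 * d + 2))⁻¹}
      ≤ ENNReal.ofReal (6 * 17 ^ d * ((L : ℝ) ^ (3 * d + 2) * ((L : ℝ) ^ r)⁻¹)) := by
  have hL' : (0 : ℝ) < L := by exact_mod_cast hL
  set t : ℝ := ((L : ℝ) ^ (2 * d + 2))⁻¹ with ht
  have ht0 : 0 < t := by positivity
  have hsub : {E | ¬ (PP d).real {ω | ¬ RR r ω E L (0 : V d)} ≤ t} ⊆
      {E | ENNReal.ofReal t ≤ (PP d) {ω | ¬ RR r ω E L (0 : V d)}} := by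
    intro E hE
    simp only [Set.mem_ofPred_eq, not_le] at hE ⊢
    rw [ENNReal.ofReal_le_iff_le_toReal (measure_ne_top _ _)]
    exact hE.le
  have h1 := mul_meas_ge_le_lintegral (μ := (volume : Measure ℝ)) (meas_prob_RR (d := d) r L)
    (ENNReal.ofReal t)
  have h2 := h1.trans (lintegral_not_RR (d := d) r L hL)
  have h3 : volume {E | ENNReal.ofReal t ≤ (PP d) {ω | ¬ RR r ω E L (0 : V d)}} ≤
      ENNReal.ofReal (6 * ((L : ℝ) ^ r)⁻¹ * (17 * L) ^ d) / ENNReal.ofReal t := by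
    rw [ENNReal.le_div_iff_mul_le (Or.inl (by simpa using ht0)) (Or.inl ENNReal.ofReal_ne_top)]
    rwa [mul_comm]
  refine (measure_mono hsub).trans (h3.trans ?_)
  rw [← ENNReal.ofReal_div_of_pos ht0]
  apply ENNReal.ofReal_le_ofReal
  rw [ht]
  apply le_of_eq
  have e1 : (L : ℝ) ^ (3 * d + 2) = (L : ℝ) ^ (2 * d + 2) * (L : ℝ) ^ d := by
    rw [← pow_add]; congr 1; ring
  rw [e1, mul_pow]
  field_simp

theorem vol : S_VOL := by
  intro d r L0 hr hL0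
  have h17 : 1 ≤ 17 ^ d := Nat.one_le_pow _ _ (by norm_num)
  have hL1 : 1 ≤ L0 := by omega
  have hL' : (0 : ℝ) < L0 := by exact_mod_cast hL1
  obtain ⟨s, rfl⟩ : ∃ s, r = 3 * d + 3 + (s + 1) := ⟨r - (3 * d + 4), by omega⟩
  have es : 3 * d + 3 + (s + 1) - (3 * d + 3) = s + 1 := by omega
  rw [es]
  have h1 : (XX d (3 * d + 3 + (s + 1)) L0)ᶜ ⊆
      ⋃ k : ℕ, {E | ¬ (PP d).real {ω | ¬ RR (3 * d + 3 + (s + 1)) ω E (10 ^ k * L0) (0 : V d)}
      ≤ (((10 ^ k * L0 : ℕ) : ℝ) ^ (2 * d + 2))⁻¹} := by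
    intro E hE
    simp only [XX, Set.mem_compl_iff, Set.mem_ofPred_eq, not_forall] at hE
    simp only [Set.mem_iUnion, Set.mem_ofPred_eq]
    exact hE
  have h2 : ∀ k : ℕ, volume {E | ¬ (PP d).real
      {ω | ¬ RR (3 * d + 3 + (s + 1)) ω E (10 ^ k * L0) (0 : V d)}
      ≤ (((10 ^ k * L0 : ℕ) : ℝ) ^ (2 * d + 2))⁻¹} ≤
        ENNReal.ofReal (6 * 17 ^ d * ((L0 : ℝ) ^ (s + 2))⁻¹ * (1 / 2) ^ k) := by
    intro k
    have hk : 1 ≤ 10 ^ k * L0 := Nat.one_le_iff_ne_zero.mpr (by positivity)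
    refine (volume_aux hk).trans ?_
    apply ENNReal.ofReal_le_ofReal
    rw [mul_assoc (6 * 17 ^ d : ℝ)]
    apply mul_le_mul_of_nonneg_left _ (by positivity)
    set L : ℝ := ((10 ^ k * L0 : ℕ) : ℝ) with hL
    have hLp : 0 < L := by rw [hL]; exact_mod_cast hk
    have e1 : L ^ (3 * d + 2) * (L ^ (3 * d + 3 + (s + 1)))⁻¹ = (L ^ (s + 2))⁻¹ := by
      have : L ^ (3 * d + 3 + (s + 1)) = L ^ (3 * d + 2) * L ^ (s + 2) := by
        rw [← pow_add]; congr 1; ring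
      rw [this]; field_simp
    rw [e1, hL]
    push_cast
    rw [mul_pow, mul_inv, mul_comm]
    apply mul_le_mul_of_nonneg_left _ (by positivity)
    rw [one_div, inv_pow]
    apply inv_anti₀ (by positivity)
    rw [← pow_mul]
    calc (2 : ℝ) ^ k ≤ 10 ^ k := by gcongr; norm_num
      _ ≤ 10 ^ (k * (s + 2)) := pow_le_pow_right₀ (by norm_num) (by nlinarith)
  have hsum : Summable fun k : ℕ => 6 * 17 ^ d * ((L0 : ℝ) ^ (s + 2))⁻¹ * (1 / 2 : ℝ) ^ k :=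
    summable_geometric_two.mul_left _
  calc volume (XX d (3 * d + 3 + (s + 1)) L0)ᶜ ≤ _ := measure_mono h1
    _ ≤ ∑' k : ℕ, volume {E | ¬ (PP d).real
      {ω | ¬ RR (3 * d + 3 + (s + 1)) ω E (10 ^ k * L0) (0 : V d)}
      ≤ (((10 ^ k * L0 : ℕ) : ℝ) ^ (2 * d + 2))⁻¹} := measure_iUnion_le _
    _ ≤ ∑' k : ℕ, ENNReal.ofReal (6 * 17 ^ d * ((L0 : ℝ) ^ (s + 2))⁻¹ * (1 / 2) ^ k) :=
        ENNReal.tsum_le_tsum h2
    _ = ENNReal.ofReal (∑' k : ℕ, 6 * 17 ^ d * ((L0 : ℝ) ^ (s + 2))⁻¹ * (1 / 2) ^ k) :=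
        (ENNReal.ofReal_tsum_of_nonneg (fun k => by positivity) hsum).symm
    _ ≤ ENNReal.ofReal (((L0 : ℝ) ^ (s + 1))⁻¹) := by
        apply ENNReal.ofReal_le_ofReal
        rw [tsum_mul_left, tsum_geometric_two]
        have h3 : (12 * 17 ^ d : ℝ) ≤ L0 := by exact_mod_cast hL0
        have e : 6 * 17 ^ d * ((L0 : ℝ) ^ (s + 2))⁻¹ * 2 =
            (12 * 17 ^ d * (L0 : ℝ)⁻¹) * ((L0 : ℝ) ^ (s + 1))⁻¹ := by
          rw [pow_succ (L0 : ℝ) (s + 1), mul_inv]; ring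
        rw [e]
        have h5 : 12 * 17 ^ d * (L0 : ℝ)⁻¹ ≤ 1 := by
          rw [← div_eq_mul_inv, div_le_one hL']; exact h3
        have h6 : 0 ≤ ((L0 : ℝ) ^ (s + 1))⁻¹ := by positivity
        nlinarith

end Pool.Agent.L7h99.AE
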