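import Pool.Agent.L7h99.AE.Defs

set_option autoImplicit false

/-! Probability of the initial event. -/

namespace Pool.Agent.L7h99.AE

open Finset MeasureTheory ProbabilityTheory
open scoped ENNReal
open Pool.Agent.H12R2.And (V ee Q pot PP Dep Good mem_Q card_Q Q_trans Q_mono)

variable {d : ℕ}

lemma real_pattern (F : Finset (V d)) (c : V d → Bool) :
    (PP d).real {ω | ∀ x ∈ F, ω x = c x} = (1 / 2 : ℝ) ^ F.card := by
  have h1 : {ω : V d → Bool | ∀ x ∈ F, ω x = c x} = Set.pi (F : Set (V d)) (fun x => {c x}) := by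
    ext ω; simp [Set.mem_pi]
  rw [h1]
  unfold Measure.real PP
  rw [Measure.infinitePi_pi _ (fun i _ => measurableSet_singleton (c i))]
  have h2 : ∀ b : Bool, (PMF.uniformOfFintype Bool).toMeasure {b} = 2⁻¹ := by
    intro b
    rw [PMF.toMeasure_apply_singleton _ _ (measurableSet_singleton b),
      PMF.uniformOfFintype_apply]
    simp
  rw [Finset.prod_congr rfl (fun i _ => h2 (c i))]
  simp

lemma few (b : Bool) (F : Finset (V d)) :
    (PP d).real {ω | 4 * (F.filter (fun z => ω z = b)).card < F.card} ≤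
      (97 / 108 : ℝ) ^ F.card := by
  classical
  set P := F.powerset.filter (fun S => 4 * S.card < F.card) with hP
  have h1 : {ω : V d → Bool | 4 * (F.filter (fun z => ω z = b)).card < F.card} ⊆
      ⋃ S ∈ P, {ω : V d → Bool | ∀ x ∈ F, ω x = if x ∈ S then b else !b} := by
    intro ω hω
    simp only [Set.mem_iUnion]
    refine ⟨F.filter (fun z => ω z = b), ?_, ?_⟩
    · rw [hP, Finset.mem_filter, Finset.mem_powerset]
      exact ⟨Finset.filter_subset _ _, hω⟩
    · intro x hx
      by_cases h : ω x = b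
      · rw [if_pos (Finset.mem_filter.2 ⟨hx, h⟩)]; exact h
      · have hn : x ∉ F.filter (fun z => ω z = b) := fun hc => h (Finset.mem_filter.1 hc).2
        rw [if_neg hn]
        revert h
        cases ω x <;> cases b <;> simp
  calc (PP d).real {ω | 4 * (F.filter (fun z => ω z = b)).card < F.card}
      ≤ (PP d).real (⋃ S ∈ P, {ω : V d → Bool | ∀ x ∈ F, ω x = if x ∈ S then b else !b}) :=
        measureReal_mono h1 (measure_ne_top _ _)
    _ ≤ ∑ S ∈ P, (PP d).real {ω : V d → Bool | ∀ x ∈ F, ω x = if x ∈ S then b else !b} :=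
        measureReal_biUnion_finset_le _ _
    _ = ∑ S ∈ P, (1 / 2 : ℝ) ^ F.card := by
        refine Finset.sum_congr rfl fun S _ => ?_
        exact real_pattern F _
    _ ≤ ∑ S ∈ P, (1 / 2 : ℝ) ^ F.card *
          ((3 / 2) ^ F.card * ((16 / 81 : ℝ) ^ S.card * 1 ^ (F.card - S.card))) := by
        refine Finset.sum_le_sum fun S hS => ?_
        rw [hP, Finset.mem_filter] at hS
        refine le_mul_of_one_le_right (by positivity) ?_
        rw [one_pow, mul_one]
        have e : (16 / 81 : ℝ) ^ S.card = ((3 / 2 : ℝ) ^ (4 * S.card))⁻¹ := by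
          rw [pow_mul, ← inv_pow]; norm_num
        rw [e, ← div_eq_mul_inv, le_div_iff₀ (by positivity), one_mul]
        exact pow_le_pow_right₀ (by norm_num) hS.2.le
    _ ≤ ∑ S ∈ F.powerset, (1 / 2 : ℝ) ^ F.card *
          ((3 / 2) ^ F.card * ((16 / 81 : ℝ) ^ S.card * 1 ^ (F.card - S.card))) := by
        apply Finset.sum_le_sum_of_subset_of_nonneg (Finset.filter_subset _ _)
        intro S _ _
        positivity
    _ = (97 / 108 : ℝ) ^ F.card := by
        rw [← Finset.mul_sum, ← Finset.mul_sum, Finset.sum_pow_mul_eq_add_pow, ← mul_pow,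
          ← mul_pow]
        norm_num

theorem pro : S_PRO := by
  intro d b n L a
  have h1 : {ω : V d → Bool | ¬ Dn b n L ω a} ⊆
      ⋃ x ∈ Q a (L - n), {ω : V d → Bool |
        4 * ((Q x n).filter (fun z => ω z = b)).card < (Q x n).card} := by
    intro ω hω
    simp only [Dn, Set.mem_ofPred_eq, not_forall, not_le] at hω
    obtain ⟨x, hx, h⟩ := hω
    simp only [Set.mem_iUnion]
    exact ⟨x, hx, h⟩
  calc (PP d).real {ω | ¬ Dn b n L ω a}
      ≤ (PP d).real (⋃ x ∈ Q a (L - n), {ω : V d → Bool |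
        4 * ((Q x n).filter (fun z => ω z = b)).card < (Q x n).card}) :=
        measureReal_mono h1 (measure_ne_top _ _)
    _ ≤ ∑ x ∈ Q a (L - n), (PP d).real {ω : V d → Bool |
        4 * ((Q x n).filter (fun z => ω z = b)).card < (Q x n).card} :=
        measureReal_biUnion_finset_le _ _
    _ ≤ ∑ x ∈ Q a (L - n), (97 / 108 : ℝ) ^ ((2 * n + 1) ^ d) := by
        refine Finset.sum_le_sum fun x _ => ?_
        have := few b (Q x n)
        refine this.trans (le_of_eq ?_)
        rw [card_Q]
    _ = ((2 * (L - n : ℕ) + 1) ^ d : ℕ) * (97 / 108 : ℝ) ^ ((2 * n + 1) ^ d) := by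
        rw [Finset.sum_const, card_Q, nsmul_eq_mul]
    _ ≤ _ := by
        push_cast
        have : ((L - n : ℕ) : ℝ) ≤ L := by exact_mod_cast Nat.sub_le L n
        gcongr

lemma dep_Dn (b : Bool) (n L : ℕ) (hn : n ≤ L) (a : V d) :
    Dep (Q a L) {ω | Dn b n L ω a} := by
  intro ω ω' h1 h2 x hx
  have h3 := h2 x hx
  refine h3.trans (le_of_eq ?_)
  congr 2
  apply Finset.filter_congr
  intro z hz
  rw [h1 z]
  have := Q_trans hx hz
  rwa [Nat.sub_add_cancel hn] at this

end Pool.Agent.L7h99.AE
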