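import Pool.Agent.L7h99.AE.Defs

set_option autoImplicit false

/-! The scales. -/

namespace Pool.Agent.L7h99.AE

open Filter Topology

variable {d : ℕ}

/-- the exponent of the initial scale -/
def jj (d n : ℕ) : ℕ := (2 * n + 1) ^ d / (56 * d + 14)

/-- the width of the zone -/
noncomputable def dl (d n : ℕ) : ℝ := 1 / (16 * d * n ^ 2)

/-- the stages at which everything works -/
structure Stage (d n : ℕ) : Prop where
  one_le : 1 ≤ n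
  n_le : n ≤ 4 ^ jj d n
  j_le : 2 ≤ jj d n
  r_le : 3 * d + 4 ≤ 2 ^ jj d n
  big1 : 2 * d * 17 ^ d * 10 ^ (d + 1) ≤ 4 ^ jj d n
  big2 : 6 * 17 ^ (2 * d) * 10 ^ (2 * d + 1) ≤ 4 ^ jj d n
  big3 : 12 * 17 ^ d ≤ 4 ^ jj d n
  big4 : 4 ^ d * (4 * d ^ 2) ≤ 4 ^ jj d n
  prob : (2 * ((4 ^ jj d n : ℕ) : ℝ) + 1) ^ d * (97 / 108 : ℝ) ^ ((2 * n + 1) ^ d) ≤
    (((4 ^ jj d n : ℕ) : ℝ) ^ (2 * d + 1))⁻¹
  decay : (2 * ((4 ^ jj d n : ℕ) : ℝ) + 1) ^ d / 2 ^ ((4 ^ jj d n - n) / (8 * d * n)) ≤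
    (((4 ^ jj d n : ℕ) : ℝ) ^ (4 * 2 ^ jj d n + 2 * d + 2))⁻¹
  vol : (((4 ^ jj d n : ℕ) : ℝ) ^ (2 ^ jj d n - (3 * d + 3)))⁻¹ ≤ Real.exp (-2 ^ jj d n)

lemma jj_lt (d n : ℕ) : (2 * n + 1) ^ d < (56 * d + 14) * (jj d n + 1) :=
  Nat.lt_mul_div_succ _ (by omega)

lemma jj_le (d n : ℕ) : (56 * d + 14) * jj d n ≤ (2 * n + 1) ^ d :=
  Nat.mul_div_le _ _

lemma n_lt (hd : 1 ≤ d) (n : ℕ) : n ≤ (56 * d + 14) * (jj d n + 1) := by
  refine le_trans ?_ (jj_lt d n).le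
  calc n ≤ 2 * n + 1 := by omega
    _ ≤ (2 * n + 1) ^ d := Nat.le_self_pow (by omega) _

lemma jj_tendsto (hd : 1 ≤ d) : Tendsto (jj d) atTop atTop := by
  rw [tendsto_atTop_atTop]
  intro b
  refine ⟨(56 * d + 14) * (b + 1), fun n hn => ?_⟩
  have h := n_lt hd n
  have h2 : (56 * d + 14) * (b + 1) ≤ (56 * d + 14) * (jj d n + 1) := hn.trans h
  have h3 := Nat.le_of_mul_le_mul_left h2 (by omega)
  omega

lemma prob_aux {j N : ℕ} (hj : 1 ≤ j) (hN : (56 * d + 14) * j ≤ N) :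
    (2 * ((4 ^ j : ℕ) : ℝ) + 1) ^ d * (97 / 108 : ℝ) ^ N ≤ (((4 ^ j : ℕ) : ℝ) ^ (2 * d + 1))⁻¹ := by
  have h1 : (1 : ℝ) ≤ 4 ^ j := one_le_pow₀ (by norm_num)
  push_cast
  have e97 : (97 / 108 : ℝ) ^ N = ((108 / 97 : ℝ) ^ N)⁻¹ := by
    rw [← inv_pow]; norm_num
  rw [e97, ← div_eq_mul_inv, div_le_iff₀ (by positivity), inv_mul_eq_div,
    le_div_iff₀ (by positivity)]
  have a1 : (2 * (4 : ℝ) ^ j + 1) ^ d ≤ (4 * 4 ^ j) ^ d := by gcongr; linarith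
  have a2 : (4 * (4 : ℝ) ^ j) ^ d * (4 ^ j) ^ (2 * d + 1) = 2 ^ (2 * ((j + 1) * d + j * (2 * d + 1))) := by
    rw [pow_mul 2 2]
    norm_num
    rw [← pow_succ', ← pow_mul, ← pow_mul, ← pow_add]
  have a3 : (2 : ℝ) ^ (2 * ((j + 1) * d + j * (2 * d + 1))) ≤ 2 ^ ((8 * d + 2) * j) := by
    apply pow_le_pow_right₀ (by norm_num)
    nlinarith [Nat.mul_le_mul_left d hj]
  have a4 : (2 : ℝ) ^ ((8 * d + 2) * j) ≤ ((108 / 97 : ℝ) ^ 7) ^ ((8 * d + 2) * j) := by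
    apply pow_le_pow_left₀ (by norm_num)
    norm_num
  have a5 : ((108 / 97 : ℝ) ^ 7) ^ ((8 * d + 2) * j) ≤ (108 / 97 : ℝ) ^ N := by
    rw [← pow_mul]
    apply pow_le_pow_right₀ (by norm_num)
    refine le_trans (le_of_eq ?_) hN
    ring
  calc (2 * (4 : ℝ) ^ j + 1) ^ d * (4 ^ j) ^ (2 * d + 1)
      ≤ (4 * 4 ^ j) ^ d * (4 ^ j) ^ (2 * d + 1) := by gcongr
    _ = _ := a2
    _ ≤ _ := a3
    _ ≤ _ := a4
    _ ≤ _ := a5

lemma decay_aux {j m : ℕ}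
    (hm : 2 * j * (4 * 2 ^ j + 2 * d + 2) + 2 * d + 2 * j * d ≤ m) :
    (2 * ((4 ^ j : ℕ) : ℝ) + 1) ^ d / 2 ^ m ≤
    (((4 ^ j : ℕ) : ℝ) ^ (4 * 2 ^ j + 2 * d + 2))⁻¹ := by
  have h1 : (1 : ℝ) ≤ 4 ^ j := one_le_pow₀ (by norm_num)
  push_cast
  rw [div_le_iff₀ (by positivity), inv_mul_eq_div, le_div_iff₀ (by positivity)]
  have a1 : (2 * (4 : ℝ) ^ j + 1) ^ d ≤ (4 * 4 ^ j) ^ d := by gcongr; linarith
  have a2 : (4 * (4 : ℝ) ^ j) ^ d * (4 ^ j) ^ (4 * 2 ^ j + 2 * d + 2) =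
      2 ^ (2 * j * (4 * 2 ^ j + 2 * d + 2) + 2 * d + 2 * j * d) := by
    have e4 : (4 : ℝ) = 2 ^ 2 := by norm_num
    rw [e4, ← pow_mul, ← pow_add, ← pow_mul, ← pow_mul, ← pow_add]
    congr 1; ring
  calc (2 * (4 : ℝ) ^ j + 1) ^ d * (4 ^ j) ^ (4 * 2 ^ j + 2 * d + 2)
      ≤ (4 * 4 ^ j) ^ d * (4 ^ j) ^ (4 * 2 ^ j + 2 * d + 2) := by gcongr
    _ = _ := a2
    _ ≤ 2 ^ m := pow_le_pow_right₀ (by norm_num) hm

lemma vol_aux {j : ℕ} (hj : 2 ≤ j) (hr : 2 * (3 * d + 3) ≤ 2 ^ j) :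
    (((4 ^ j : ℕ) : ℝ) ^ (2 ^ j - (3 * d + 3)))⁻¹ ≤ Real.exp (-2 ^ j) := by
  rw [Real.exp_neg]
  apply inv_anti₀ (Real.exp_pos _)
  obtain ⟨i, rfl⟩ : ∃ i, j = i + 1 := ⟨j - 1, by omega⟩
  have h1 : (1 : ℝ) ≤ 4 ^ (i + 1) := one_le_pow₀ (by norm_num)
  have hs : 2 ^ i ≤ 2 ^ (i + 1) - (3 * d + 3) := by
    have : 2 ^ (i + 1) = 2 * 2 ^ i := by ring
    omega
  have e2 : (2 : ℝ) ^ (i + 1) = ((2 ^ (i + 1) : ℕ) : ℝ) := by push_cast; rfl
  have he : Real.exp 1 ≤ 2 ^ (i + 1) := by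
    have h3 := Real.exp_one_lt_three.le
    calc Real.exp 1 ≤ 4 := by linarith
      _ = 2 ^ 2 := by norm_num
      _ ≤ 2 ^ (i + 1) := pow_le_pow_right₀ (by norm_num) hj
  calc Real.exp (2 ^ (i + 1)) = Real.exp 1 ^ (2 ^ (i + 1)) := by
        rw [← Real.exp_nat_mul, mul_one, e2]
    _ ≤ ((2 : ℝ) ^ (i + 1)) ^ (2 ^ (i + 1)) := pow_le_pow_left₀ (Real.exp_pos _).le he _
    _ = ((4 : ℝ) ^ (i + 1)) ^ (2 ^ i) := by
        have e4 : (4 : ℝ) = 2 ^ 2 := by norm_num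
        rw [e4, ← pow_mul, ← pow_mul, ← pow_mul]; congr 1; ring
    _ ≤ ((4 : ℝ) ^ (i + 1)) ^ (2 ^ (i + 1) - (3 * d + 3)) := pow_le_pow_right₀ h1 hs
    _ = _ := by push_cast; rfl

lemma ev_sq (K : ℕ) : ∀ᶠ j : ℕ in atTop, K * j ^ 2 ≤ 2 ^ j := by
  have h := tendsto_pow_const_div_const_pow_of_one_lt 2 (one_lt_two : (1 : ℝ) < 2)
  have h2 := h.const_mul (K : ℝ)
  rw [mul_zero] at h2
  filter_upwards [h2.eventually (gt_mem_nhds one_pos)] with m hm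
  rw [← mul_div_assoc, div_lt_one (by positivity)] at hm
  have := hm.le
  exact_mod_cast this

lemma ev_four (C : ℕ) : ∀ᶠ j : ℕ in atTop, C ≤ 4 ^ j := by
  filter_upwards [eventually_ge_atTop C] with j hj
  exact hj.trans (Nat.lt_pow_self (by norm_num)).le

lemma ev_two (C : ℕ) : ∀ᶠ j : ℕ in atTop, C ≤ 2 ^ j := by
  filter_upwards [eventually_ge_atTop C] with j hj
  exact hj.trans (Nat.lt_pow_self (by norm_num)).le

lemma ev_stage (hd : 1 ≤ d) : ∀ᶠ n : ℕ in atTop, Stage d n := by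
  set C : ℕ := 56 * d + 14 with hC
  set K : ℕ := 16 * d * C * (8 * d + 12) + 2 * C with hK
  have hj := jj_tendsto hd
  filter_upwards [eventually_ge_atTop 1, hj.eventually (eventually_ge_atTop 2),
    hj.eventually (ev_two (2 * (3 * d + 3))), hj.eventually (ev_four (2 * d * 17 ^ d * 10 ^ (d + 1))),
    hj.eventually (ev_four (6 * 17 ^ (2 * d) * 10 ^ (2 * d + 1))),
    hj.eventually (ev_four (12 * 17 ^ d)), hj.eventually (ev_four (4 ^ d * (4 * d ^ 2))),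
    hj.eventually (ev_sq K)] with n h1 h2 h3 h4 h5 h6 h7 h8
  have hn := n_lt hd n
  set j := jj d n with hjd
  have hn2 : n ≤ C * (2 * j) := hn.trans (Nat.mul_le_mul_left _ (by omega))
  have h2j : 1 ≤ 2 ^ j := Nat.one_le_two_pow
  have e4 : 4 ^ j = 2 ^ j * 2 ^ j := by
    rw [← mul_pow]; norm_num
  have hX : 2 * j * (4 * 2 ^ j + 2 * d + 2) + 2 * d + 2 * j * d ≤ (8 * d + 12) * (j * 2 ^ j) := by
    have a1 : j ≤ j * 2 ^ j := Nat.le_mul_of_pos_right _ (by omega)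
    have a2 : j * d ≤ j * 2 ^ j * d := Nat.mul_le_mul_right _ a1
    have a3 : d ≤ j * 2 ^ j * d := Nat.le_mul_of_pos_left _ (by positivity)
    nlinarith
  have key : (2 * j * (4 * 2 ^ j + 2 * d + 2) + 2 * d + 2 * j * d) * (8 * d * n) + n ≤ 4 ^ j := by
    calc (2 * j * (4 * 2 ^ j + 2 * d + 2) + 2 * d + 2 * j * d) * (8 * d * n) + n
        ≤ ((8 * d + 12) * (j * 2 ^ j)) * (8 * d * (C * (2 * j))) + C * (2 * j) := by gcongr
      _ = (16 * d * C * (8 * d + 12) * j ^ 2) * 2 ^ j + 2 * C * j := by ring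
      _ ≤ (16 * d * C * (8 * d + 12) * j ^ 2) * 2 ^ j + (2 * C * j ^ 2) * 2 ^ j := by
          refine Nat.add_le_add_left ?_ _
          calc 2 * C * j = 2 * C * j * 1 := by ring
            _ ≤ 2 * C * j ^ 2 * 2 ^ j :=
              Nat.mul_le_mul (Nat.mul_le_mul_left _ (Nat.le_self_pow (by norm_num) _)) h2j
      _ = (K * j ^ 2) * 2 ^ j := by rw [hK]; ring
      _ ≤ 2 ^ j * 2 ^ j := Nat.mul_le_mul_right _ h8
      _ = 4 ^ j := e4.symm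
  have h3' : 3 * d + 4 ≤ 2 ^ j := by omega
  refine ⟨h1, ?_, h2, h3', h4, h5, h6, h7, prob_aux (by omega) (jj_le d n), ?_, vol_aux h2 h3⟩
  · exact le_trans (Nat.le_add_left _ _) key
  · apply decay_aux
    rw [Nat.le_div_iff_mul_le (by positivity)]
    exact Nat.le_sub_of_add_le key

lemma dl_pos (hd : 1 ≤ d) {n : ℕ} (hn : 1 ≤ n) : 0 < dl d n := by
  have h1 : (0 : ℝ) < d := by exact_mod_cast hd
  have h2 : (0 : ℝ) < n := by exact_mod_cast hn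
  unfold dl; positivity

lemma dl_le_one (hd : 1 ≤ d) {n : ℕ} (hn : 1 ≤ n) : dl d n ≤ 1 := by
  have h1 : (1 : ℝ) ≤ d := by exact_mod_cast hd
  have h2 : (1 : ℝ) ≤ n := by exact_mod_cast hn
  unfold dl
  rw [div_le_one (by positivity)]
  have : (1 : ℝ) ≤ n ^ 2 := one_le_pow₀ h2
  nlinarith

lemma dl_tendsto (hd : 1 ≤ d) : Tendsto (dl d) atTop (𝓝 0) := by
  have h1 : (1 : ℝ) ≤ d := by exact_mod_cast hd
  have h2 : Tendsto (fun n : ℕ => ((n : ℝ))⁻¹) atTop (𝓝 0) := tendsto_inv_atTop_nhds_zero_nat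
  refine squeeze_zero' (Eventually.of_forall fun n => by unfold dl; positivity) ?_ h2
  filter_upwards [eventually_ge_atTop 1] with n hn
  have h3 : (1 : ℝ) ≤ n := by exact_mod_cast hn
  unfold dl
  rw [one_div]
  apply inv_anti₀ (by linarith)
  nlinarith [mul_le_mul h1 h3 (by norm_num) (by linarith)]

/-- the comparison of the bounds -/
lemma final_bound (hd : 1 ≤ d) {n : ℕ} (hj : 1 ≤ jj d n) {η : ℝ} (hη : dl d (n + 1) ≤ η) :
    Real.exp (-2 ^ jj d n) ≤ Real.exp (-Real.exp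
      ((Real.log 2 / (2 * (56 * d + 14) * (16 * d : ℝ) ^ ((d : ℝ) / 2))) * η ^ (-(d : ℝ) / 2))) := by
  have h1 : (1 : ℝ) ≤ d := by exact_mod_cast hd
  have hd0 : 0 < dl d (n + 1) := dl_pos hd (by omega)
  apply Real.exp_le_exp.2
  apply neg_le_neg
  have h16 : (0 : ℝ) < (16 * d : ℝ) ^ ((d : ℝ) / 2) := Real.rpow_pos_of_pos (by positivity) _
  have hη1 : η ^ (-(d : ℝ) / 2) ≤ (16 * d : ℝ) ^ ((d : ℝ) / 2) * ((n : ℝ) + 1) ^ d := by
    calc η ^ (-(d : ℝ) / 2) ≤ (dl d (n + 1)) ^ (-(d : ℝ) / 2) :=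
          Real.rpow_le_rpow_of_nonpos hd0 hη (by
            rw [neg_div]; exact neg_nonpos.2 (by positivity))
      _ = (16 * d * ((n : ℝ) + 1) ^ 2) ^ ((d : ℝ) / 2) := by
          unfold dl
          rw [neg_div, Real.rpow_neg (by positivity), one_div, Real.inv_rpow (by positivity), inv_inv]
          push_cast
          rfl
      _ = (16 * d : ℝ) ^ ((d : ℝ) / 2) * ((n : ℝ) + 1) ^ d := by
          rw [Real.mul_rpow (by positivity) (by positivity)]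
          congr 1
          rw [← Real.rpow_natCast ((n : ℝ) + 1) 2, ← Real.rpow_mul (by positivity),
            ← Real.rpow_natCast ((n : ℝ) + 1) d]
          congr 1
          push_cast
          ring
  have hj2 : ((n : ℝ) + 1) ^ d ≤ (56 * d + 14) * (2 * jj d n) := by
    have h3 : (n + 1) ^ d ≤ (56 * d + 14) * (2 * jj d n) := by
      calc (n + 1) ^ d ≤ (2 * n + 1) ^ d := Nat.pow_le_pow_left (by omega) _
        _ ≤ (56 * d + 14) * (jj d n + 1) := (jj_lt d n).le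
        _ ≤ _ := Nat.mul_le_mul_left _ (by omega)
    exact_mod_cast h3
  have hl : 0 < Real.log 2 := Real.log_pos (by norm_num)
  calc Real.exp ((Real.log 2 / (2 * (56 * d + 14) * (16 * d : ℝ) ^ ((d : ℝ) / 2))) *
        η ^ (-(d : ℝ) / 2))
      ≤ Real.exp (Real.log 2 * jj d n) := by
        apply Real.exp_le_exp.2
        rw [div_mul_eq_mul_div, div_le_iff₀ (by positivity)]
        calc Real.log 2 * η ^ (-(d : ℝ) / 2)
            ≤ Real.log 2 * ((16 * d : ℝ) ^ ((d : ℝ) / 2) * ((56 * d + 14) * (2 * jj d n))) := by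
              gcongr
              exact hη1.trans (by gcongr)
          _ = _ := by ring
    _ = 2 ^ jj d n := by
        rw [mul_comm, Real.exp_nat_mul, Real.exp_log (by norm_num)]

end Pool.Agent.L7h99.AE
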