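import Pool.Agent.L7h99.AE.Eng
import Pool.Agent.L7h99.AE.Scale
import Pool.Agent.L7h99.AE.Pro

set_option autoImplicit false

/-! Assembly. -/

namespace Pool.Agent.L7h99.AE

open Complex MeasureTheory ProbabilityTheory Filter
open scoped ENNReal Topology InnerProductSpace
open Pool.Agent.H12R2.And (V ee Q pot PP Dep Good Edge hop NR RR XX IsH Rz edge_lower edge_upper
  measurableSet_XX)

variable {d : ℕ}

/-- edge interval -/
def EI (d n : ℕ) (b : Bool) : Set ℝ :=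
  if b then Set.Ioo (-1) (-1 + dl d n) else Set.Ioo (4 * d + 1 - dl d n) (4 * d + 1)

lemma measurableSet_EI (m : ℕ) (b : Bool) : MeasurableSet (EI d m b) := by
  unfold EI; cases b
  · simp only [Bool.false_eq_true, if_false]; exact measurableSet_Ioo
  · simp only [if_true]; exact measurableSet_Ioo

lemma EI_sub (hd : 1 ≤ d) {m : ℕ} (hm : 1 ≤ m) (b : Bool) :
    EI d m b ⊆ Set.Ioc (-(4 * d + 2) : ℝ) (4 * d + 2) := by
  have hd' : (1 : ℝ) ≤ d := by exact_mod_cast hd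
  have h1 := dl_le_one hd hm
  have h0 := dl_pos hd hm
  intro E hE
  unfold EI at hE
  cases b
  · simp only [Bool.false_eq_true, if_false] at hE
    exact ⟨by linarith [hE.1], by linarith [hE.2]⟩
  · simp only [if_true] at hE
    exact ⟨by linarith [hE.1], by linarith [hE.2]⟩

lemma edge_EI (m : ℕ) (b : Bool) {E : ℝ} (hE : E ∈ EI d m b) : Edge d b (dl d m) E := by
  unfold EI at hE
  cases b
  · simp only [Bool.false_eq_true, if_false] at hE
    exact edge_upper hE.1 hE.2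
  · simp only [if_true] at hE
    exact edge_lower hE.1 hE.2

/-- the good energies at stage `n` -/
def SB (d n : ℕ) (b : Bool) : Set ℝ := EI d n b ∩ XX d (2 ^ jj d n) (4 ^ jj d n)

lemma measurableSet_SB (m : ℕ) (b : Bool) : MeasurableSet (SB d m b) :=
  (measurableSet_EI m b).inter (measurableSet_XX _ _)

/-- the statement that the spectral measures are singular on `S` -/
def SingOn (d : ℕ) (S : Set ℝ) : Prop :=
  ∀ᵐ ω ∂(PP d), ∀ (H : lp (fun _ : V d => ℂ) 2 →L[ℂ] lp (fun _ : V d => ℂ) 2), IsH ω H →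
    ∀ (ψ : lp (fun _ : V d => ℂ) 2) (μ : Measure ℝ), IsFiniteMeasure μ →
      (∀ z : ℂ, z.im ≠ 0 → (∫ x, ((x : ℂ) - z)⁻¹ ∂μ) = inner ℂ ψ (Rz H z ψ)) →
      (μ.restrict S) ⟂ₘ volume

lemma stage_ae (hDEC : S_DEC) (hd : 2 ≤ d) {n : ℕ} (hn : Stage d n) (b : Bool) :
    SingOn d (SB d n b) := by
  have hd1 : 1 ≤ d := by omega
  have hn1 := hn.one_le
  have hd' : (1 : ℝ) ≤ d := by exact_mod_cast hd1
  have hn' : (1 : ℝ) ≤ n := by exact_mod_cast hn1
  refine eng hd (4 ^ jj d n) (2 ^ jj d n) (Dn b n (4 ^ jj d n)) (fun a => dep_Dn b n _ hn.n_le a)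
    (Nat.one_le_pow _ _ (by norm_num)) Nat.one_le_two_pow hn.big1 hn.big2 hn.big4 ?_ (EI d n b)
    (measurableSet_EI n b) (EI_sub hd1 hn1 b) ?_
  · intro a
    exact (pro b n _ a).trans hn.prob
  · intro E hE ω a hJ
    refine Pool.Agent.H12R2.And.Good.mono (hDEC hd1 b n (4 ^ jj d n) (dl d n) E hn1 hn.n_le (edge_EI n b hE) ?_
      ω a hJ) hn.decay
    unfold dl
    apply le_of_eq
    field_simp

/-- the set of energies -/
def SS (d : ℕ) : Set ℝ := ⋃ p : {n : ℕ // Stage d n} × Bool, SB d p.1 p.2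

lemma measurableSet_SS : MeasurableSet (SS d) :=
  MeasurableSet.iUnion fun _ => measurableSet_SB _ _

theorem sing (hDEC : S_DEC) (hd : 2 ≤ d) : SingOn d (SS d) := by
  have h1 : ∀ᵐ ω ∂(PP d), ∀ p : {n : ℕ // Stage d n} × Bool,
      ∀ (H : lp (fun _ : V d => ℂ) 2 →L[ℂ] lp (fun _ : V d => ℂ) 2), IsH ω H →
      ∀ (ψ : lp (fun _ : V d => ℂ) 2) (μ : Measure ℝ), IsFiniteMeasure μ →
      (∀ z : ℂ, z.im ≠ 0 → (∫ x, ((x : ℂ) - z)⁻¹ ∂μ) = inner ℂ ψ (Rz H z ψ)) →
      (μ.restrict (SB d p.1 p.2)) ⟂ₘ volume := by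
    rw [ae_all_iff]
    intro p
    exact stage_ae hDEC hd p.1.2 p.2
  filter_upwards [h1] with ω hω H hH ψ μ hμf hμ
  have h2 : μ.restrict (SS d) ≤ Measure.sum (fun p : {n : ℕ // Stage d n} × Bool =>
      μ.restrict (SB d p.1 p.2)) := Measure.restrict_iUnion_le
  refine Measure.MutuallySingular.mono ?_ h2 le_rfl
  rw [Measure.MutuallySingular.sum_left]
  intro p
  exact hω p H hH ψ μ hμf hμ

theorem small (hd : 2 ≤ d) : ∃ η₀ : ℝ, 0 < η₀ ∧ ∀ η : ℝ, 0 < η → η < η₀ →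
    volume (Set.Ioo (-1) (-1 + η) \ SS d) ≤ ENNReal.ofReal (Real.exp (-Real.exp
      ((Real.log 2 / (2 * (56 * d + 14) * (16 * d : ℝ) ^ ((d : ℝ) / 2))) * η ^ (-(d : ℝ) / 2)))) ∧
    volume (Set.Ioo (4 * d + 1 - η) (4 * d + 1) \ SS d) ≤ ENNReal.ofReal (Real.exp (-Real.exp
      ((Real.log 2 / (2 * (56 * d + 14) * (16 * d : ℝ) ^ ((d : ℝ) / 2))) * η ^ (-(d : ℝ) / 2)))) := by
  have hd1 : 1 ≤ d := by omega
  obtain ⟨n0', hn0'⟩ := (ev_stage hd1).exists_forall_of_atTop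
  set n0 := max n0' 1 with hn0d
  have hn0 : ∀ n, n0 ≤ n → Stage d n := fun n hn => hn0' n ((le_max_left _ _).trans hn)
  have hn01 : 1 ≤ n0 := le_max_right _ _
  refine ⟨dl d n0, dl_pos hd1 hn01, fun η hη hη0 => ?_⟩
  have hex : ∃ m, n0 ≤ m ∧ dl d (m + 1) ≤ η ∧ η < dl d m := by
    have h1 : ∃ j : ℕ, dl d (n0 + j) ≤ η := by
      have h2 := (dl_tendsto hd1).eventually (gt_mem_nhds hη)
      obtain ⟨j, hj⟩ := (h2.and (eventually_ge_atTop n0)).exists
      refine ⟨j - n0, ?_⟩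
      rw [Nat.add_sub_cancel' hj.2]
      exact hj.1.le
    classical
    set j := Nat.find h1 with hj
    have hj1 := Nat.find_spec h1
    have hj0 : j ≠ 0 := by
      intro h0
      rw [← hj, h0, add_zero] at hj1
      linarith
    obtain ⟨i, hi⟩ := Nat.exists_eq_succ_of_ne_zero hj0
    refine ⟨n0 + i, by omega, ?_, ?_⟩
    · rw [← hj, hi] at hj1
      exact hj1
    · have := Nat.find_min h1 (m := i) (by rw [← hj]; omega)
      exact not_le.1 this
  obtain ⟨m, hm, hm1, hm2⟩ := hex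
  have hst := hn0 m hm
  have hcomp : ∀ (b : Bool) (I : Set ℝ), I ⊆ EI d m b →
      volume (I \ SS d) ≤ ENNReal.ofReal (Real.exp (-Real.exp
      ((Real.log 2 / (2 * (56 * d + 14) * (16 * d : ℝ) ^ ((d : ℝ) / 2))) * η ^ (-(d : ℝ) / 2)))) := by
    intro b I hI
    have hsub : I \ SS d ⊆ (XX d (2 ^ jj d m) (4 ^ jj d m))ᶜ := by
      intro E hE hEX
      apply hE.2
      simp only [SS, Set.mem_iUnion]
      exact ⟨(⟨m, hst⟩, b), hI hE.1, hEX⟩
    refine (measure_mono hsub).trans ((vol _ _ hst.r_le hst.big3).trans ?_)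
    apply ENNReal.ofReal_le_ofReal
    exact hst.vol.trans (final_bound hd1 (by have := hst.j_le; omega) hm1)
  constructor
  · apply hcomp true
    intro E hE
    simp only [EI, if_true]
    exact ⟨hE.1, by linarith [hE.2]⟩
  · apply hcomp false
    intro E hE
    simp only [EI, Bool.false_eq_true, if_false]
    exact ⟨by linarith [hE.1], hE.2⟩

end Pool.Agent.L7h99.AE
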